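import Pool.Agent.H25.MstContr

set_option autoImplicit false

namespace Pool.Agent.Results.MP_e83d06_co.Cex

open Pool.Agent.H25.Mst

/-- There are a finite connected graph `G` and an edge `uv` whose contraction strictly
increases the mean subtree order; in particular `mu G - mu (G/uv) < 1/3`. -/
theorem result : ∃ (V : Type) (_ : Finite V) (G : SimpleGraph V) (u v : V),
    G.Connected ∧ G.Adj u v ∧ mu G < mu (contract G u v) ∧
      mu G - mu (contract G u v) < 1 / 3 := by
  refine ⟨_, inferInstance, pend (cyc 237) pB, Sum.inl ((30 : ℕ) : ZMod (237 + 3)),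
    Sum.inr none, pend_connected (cyc_connected _) _, rfl, contr_cex, ?_⟩
  exact lt_trans (sub_neg.mpr contr_cex) (by norm_num)

end Pool.Agent.Results.MP_e83d06_co.Cex
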